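import Mathlib

/-!
Sign vectors of the subspace `V = {(x, M x)}` of `ℝ^{2r}`: if `N = M^{-T}` and all entries and all
`2 × 2` minors of `M` and `N` have the same signs (and are non-zero), and `r ≥ 3`, then `V` has a
complete cell: a sign vector realised by `V` together with all its single flips.
-/

set_option autoImplicit false

namespace Pool.Agent.H34.Mcm

open Matrix Finset

/-- The vector `(x, M x)`. -/
def gvl {r : ℕ} (M : Matrix (Fin r) (Fin r) ℝ) (x : Fin r → ℝ) : Fin r ⊕ Fin r → ℝ :=
  Sum.elim x (fun j => ∑ k, M j k * x k)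

/-- The sign vector `s` is realised. -/
def Rls {r : ℕ} (M : Matrix (Fin r) (Fin r) ℝ) (s : Fin r ⊕ Fin r → ℝ) : Prop :=
  ∃ x : Fin r → ℝ, ∀ i, 0 < s i * gvl M x i

/-- The sign vector with the sign at `m` flipped. -/
def flp {ι : Type*} [DecidableEq ι] (s : ι → ℝ) (m : ι) : ι → ℝ :=
  fun i => if i = m then - s i else s i

theorem gvl_add_smul {r : ℕ} (M : Matrix (Fin r) (Fin r) ℝ) (f w : Fin r → ℝ) (ε : ℝ)
    (i : Fin r ⊕ Fin r) :
    gvl M (fun k => f k + ε * w k) i = gvl M f i + ε * gvl M w i := by
  rcases i with i | i
  · rfl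
  · simp only [gvl, Sum.elim_inr]
    rw [Finset.mul_sum, ← Finset.sum_add_distrib]
    refine Finset.sum_congr rfl fun k _ => ?_
    ring

/-- Perturbation lemma. -/
theorem perturb {r : ℕ} {M : Matrix (Fin r) (Fin r) ℝ} {s : Fin r ⊕ Fin r → ℝ}
    (f w : Fin r → ℝ)
    (h : ∀ i, 0 < s i * gvl M f i ∨ (gvl M f i = 0 ∧ 0 < s i * gvl M w i)) : Rls M s := by
  have key : ∀ i, ∀ᶠ ε in nhdsWithin (0 : ℝ) (Set.Ioi 0),
      0 < s i * (gvl M f i + ε * gvl M w i) := by
    intro i
    rcases h i with h | ⟨h0, h1⟩
    · have hc : ContinuousAt (fun ε : ℝ => s i * (gvl M f i + ε * gvl M w i)) 0 := by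
        fun_prop
      have : ∀ᶠ ε in nhds (0 : ℝ), 0 < s i * (gvl M f i + ε * gvl M w i) := by
        apply hc.eventually_const_lt
        simpa using h
      exact this.filter_mono nhdsWithin_le_nhds
    · filter_upwards [self_mem_nhdsWithin] with ε hε
      rw [h0, zero_add]
      have : s i * (ε * gvl M w i) = ε * (s i * gvl M w i) := by ring
      rw [this]
      exact mul_pos hε h1
  obtain ⟨ε, hε⟩ := (Filter.eventually_all.2 key).exists
  exact ⟨fun k => f k + ε * w k, fun i => by rw [gvl_add_smul]; exact hε i⟩

theorem edge {r : ℕ} {M : Matrix (Fin r) (Fin r) ℝ} {s : Fin r ⊕ Fin r → ℝ}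
    {l q y : Fin r} {t κ : ℝ} (hq : q ≠ l) (ht : 0 < t) (hs : ∀ i, s i ≠ 0)
    (hl : 0 < s (Sum.inl l)) (hsq : 0 < s (Sum.inl q) * κ) (hy : M y q ≠ 0)
    (h0 : M y l + t * κ * M y q = 0)
    (hj : ∀ j, j ≠ y → 0 < s (Sum.inr j) * (M j l + t * κ * M j q)) : Rls M s := by
  classical
  let f : Fin r → ℝ := fun k => if k = l then 1 else if k = q then t * κ else 0
  let S : ℝ := ∑ k ∈ (univ.erase l).erase q, M y k * s (Sum.inl k)
  let w : Fin r → ℝ := fun k => if k = l then 0 else if k = q then (s (Sum.inr y) - S) / M y q
    else s (Sum.inl k)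
  have hsum : ∀ (j : Fin r) (g : Fin r → ℝ), ∑ k, M j k * g k =
      M j l * g l + (M j q * g q + ∑ k ∈ (univ.erase l).erase q, M j k * g k) := by
    intro j g
    rw [← Finset.add_sum_erase univ _ (mem_univ l),
      ← Finset.add_sum_erase (univ.erase l) _ (Finset.mem_erase.2 ⟨hq, mem_univ q⟩)]
  have hMf : ∀ j, ∑ k, M j k * f k = M j l + t * κ * M j q := by
    intro j
    rw [hsum, Finset.sum_eq_zero]
    · simp only [f, if_true, hq, if_false]
      ring
    · intro k hk
      simp only [Finset.mem_erase] at hk
      simp [f, hk.1, hk.2.1]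
  have hMw : ∑ k, M y k * w k = s (Sum.inr y) := by
    rw [hsum]
    have : ∑ k ∈ (univ.erase l).erase q, M y k * w k = S := by
      refine Finset.sum_congr rfl fun k hk => ?_
      simp only [Finset.mem_erase] at hk
      simp [w, hk.1, hk.2.1]
    rw [this]
    simp only [w, if_true, hq, if_false]
    field_simp
    ring
  refine perturb f w ?_
  rintro (k | j)
  · simp only [gvl, Sum.elim_inl]
    by_cases hkl : k = l
    · left
      subst hkl
      simpa [f] using hl
    · by_cases hkq : k = q
      · left
        subst hkq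
        simp only [f, hkl, if_false, if_true]
        have : s (Sum.inl k) * (t * κ) = t * (s (Sum.inl k) * κ) := by ring
        rw [this]
        exact mul_pos ht hsq
      · right
        simp only [f, w, hkl, hkq, if_false, true_and]
        exact mul_self_pos.2 (hs _)
  · simp only [gvl, Sum.elim_inr]
    by_cases hjy : j = y
    · right
      subst hjy
      rw [hMf, hMw]
      exact ⟨h0, mul_self_pos.2 (hs _)⟩
    · left
      rw [hMf]
      exact hj j hjy

/-- The vertex `v_Ψ` with `Ψ = {l} ∪ blue ∖ {x, X}`. -/
theorem psi {r : ℕ} {M N : Matrix (Fin r) (Fin r) ℝ} {s : Fin r ⊕ Fin r → ℝ}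
    (hMN : ∀ i j, ∑ k, M i k * N j k = if i = j then 1 else 0)
    {l x X : Fin r} (hxX : X ≠ x) (hs : ∀ i, s i ≠ 0)
    (hxl : N x l ≠ 0) (hXl : N X l ≠ 0)
    (hk : ∀ k, k ≠ l → 0 < s (Sum.inl k) * (N X k / N X l - N x k / N x l))
    (hx : 0 < s (Sum.inr x) * (-(1 / N x l))) (hX : 0 < s (Sum.inr X) * (1 / N X l)) :
    Rls M s := by
  classical
  let f : Fin r → ℝ := fun k => N X k / N X l - N x k / N x l
  let S : ℝ := ∑ j ∈ (univ.erase x).erase X, N j l * s (Sum.inr j)
  let b : Fin r → ℝ := fun j => if j = x then (s (Sum.inl l) - S) / N x l else if j = X then 0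
    else s (Sum.inr j)
  let w : Fin r → ℝ := fun k => ∑ j, N j k * b j
  have hMf : ∀ j, ∑ k, M j k * f k =
      (if j = X then 1 else 0) / N X l - (if j = x then 1 else 0) / N x l := by
    intro j
    rw [← hMN j X, ← hMN j x, Finset.sum_div, Finset.sum_div, ← Finset.sum_sub_distrib]
    refine Finset.sum_congr rfl fun k _ => ?_
    simp only [f]
    ring
  have hMw : ∀ j, ∑ k, M j k * w k = b j := by
    intro j
    have : ∀ k, M j k * w k = ∑ i, M j k * N i k * b i := by
      intro k
      simp only [w, Finset.mul_sum]
      refine Finset.sum_congr rfl fun i _ => ?_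
      ring
    rw [Finset.sum_congr rfl fun k _ => this k, Finset.sum_comm]
    have h2 : ∀ i, ∑ k, M j k * N i k * b i = (if j = i then 1 else 0) * b i := by
      intro i
      rw [← hMN j i, Finset.sum_mul]
    rw [Finset.sum_congr rfl fun i _ => h2 i]
    simp
  have hwl : w l = s (Sum.inl l) := by
    simp only [w]
    rw [← Finset.add_sum_erase univ _ (mem_univ x),
      ← Finset.add_sum_erase (univ.erase x) _ (Finset.mem_erase.2 ⟨hxX, mem_univ X⟩)]
    have : ∑ j ∈ (univ.erase x).erase X, N j l * b j = S := by
      refine Finset.sum_congr rfl fun k hk => ?_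
      simp only [Finset.mem_erase] at hk
      simp [b, hk.1, hk.2.1]
    rw [this]
    simp only [b, if_true, hxX, if_false]
    field_simp
    ring
  refine perturb f w ?_
  rintro (k | j)
  · simp only [gvl, Sum.elim_inl]
    by_cases hkl : k = l
    · right
      subst hkl
      rw [hwl]
      refine ⟨?_, mul_self_pos.2 (hs _)⟩
      simp only [f]
      rw [div_self hXl, div_self hxl, sub_self]
    · left
      exact hk k hkl
  · simp only [gvl, Sum.elim_inr]
    rw [hMf, hMw]
    by_cases hjx : j = x
    · left
      subst hjx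
      simpa [hxX.symm] using hx
    · by_cases hjX : j = X
      · left
        subst hjX
        simpa [hxX] using hX
      · right
        simp only [hjx, hjX, if_false, b]
        refine ⟨by simp, mul_self_pos.2 (hs _)⟩

/-- There is a complete sign vector. -/
def Cmpl {r : ℕ} (M : Matrix (Fin r) (Fin r) ℝ) : Prop :=
  ∃ s : Fin r ⊕ Fin r → ℝ, Rls M s ∧ ∀ m, Rls M (flp s m)

theorem cert {r : ℕ} {M N : Matrix (Fin r) (Fin r) ℝ} {l : Fin r}
    (hMN : ∀ i j, ∑ k, M i k * N j k = if i = j then 1 else 0)
    (hM0 : ∀ j k, M j k ≠ 0)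
    (h1 : ∀ j, 0 < M j l * N j l)
    (h2 : ∀ i j k, i ≠ j → k ≠ l →
      0 < (M i k * M j l - M i l * M j k) * (N i k * N j l - N i l * N j k))
    {p q x X : Fin r} {κ κ' : ℝ} (hκ : κ * κ = 1) (hκ' : κ' * κ' = 1)
    (hp : p ≠ l) (hq : q ≠ l) (hpq : p ≠ q)
    (hx0 : κ * (M x q / M x l) < 0)
    (hxm : ∀ j, j ≠ x → κ * (M x q / M x l) < κ * (M j q / M j l))
    (hx0' : κ' * (M x p / M x l) < 0)
    (hxm' : ∀ j, j ≠ x → κ' * (M x p / M x l) < κ' * (M j p / M j l))
    (hX : X ≠ x) (hX0 : κ * (M X q / M X l) < 0)
    (hXm : ∀ j, j ≠ x → j ≠ X → κ * (M X q / M X l) < κ * (M j q / M j l)) : Cmpl M := by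
  classical
  have hN0 : ∀ j, N j l ≠ 0 := fun j h => by have := h1 j; rw [h] at this; simp at this
  -- the comparison of quotients in `M` and `N`
  have hcmp : ∀ (k : Fin r), k ≠ l → 0 < (M x k / M x l - M X k / M X l) *
      (N x k / N x l - N X k / N X l) := by
    intro k hk
    have e := h2 x X k hX.symm hk
    have a1 := h1 x
    have a2 := h1 X
    have e1 : (M x k / M x l - M X k / M X l) * (N x k / N x l - N X k / N X l) =
        ((M x k * M X l - M x l * M X k) * (N x k * N X l - N x l * N X k)) /
        ((M x l * N x l) * (M X l * N X l)) := by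
      have := hM0 x l
      have := hM0 X l
      have := hN0 x
      have := hN0 X
      field_simp
    rw [e1]
    exact div_pos e (mul_pos a1 a2)
  let u : Fin r → ℝ := fun k => N X k / N X l - N x k / N x l
  let s : Fin r ⊕ Fin r → ℝ := Sum.elim (fun k => if k = l then 1 else u k)
    (fun j => if j = x then - M j l else M j l)
  have hu0 : ∀ k, k ≠ l → u k ≠ 0 := by
    intro k hk h
    have := hcmp k hk
    have h' : N x k / N x l - N X k / N X l = 0 := by
      simp only [u] at h
      linarith
    rw [h'] at this
    simp at this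
  have hs0 : ∀ i, s i ≠ 0 := by
    rintro (k | j)
    · by_cases hk : k = l
      · simp [s, hk]
      · simpa [s, hk] using hu0 k hk
    · by_cases hj : j = x
      · simpa [s, hj] using hM0 x l
      · simpa [s, hj] using hM0 j l
  have hfs0 : ∀ m i, flp s m i ≠ 0 := by
    intro m i
    by_cases h : i = m
    · simpa [flp, h] using hs0 m
    · simpa [flp, h] using hs0 i
  -- signs of `u` at `q` and `p`
  have huq : 0 < u q * κ := by
    have a := hcmp q hq
    have b := hxm X hX
    have c : (M x q / M x l - M X q / M X l) * κ < 0 := by nlinarith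
    have : u q = -(N x q / N x l - N X q / N X l) := by simp only [u]; ring
    rw [this]
    by_contra hcon
    push Not at hcon
    have d : 0 ≤ (N x q / N x l - N X q / N X l) * κ := by nlinarith
    have e : (M x q / M x l - M X q / M X l) * κ * ((N x q / N x l - N X q / N X l) * κ) ≤ 0 :=
      mul_nonpos_of_nonpos_of_nonneg c.le d
    have f : (M x q / M x l - M X q / M X l) * κ * ((N x q / N x l - N X q / N X l) * κ) =
        (M x q / M x l - M X q / M X l) * (N x q / N x l - N X q / N X l) * (κ * κ) := by ring
    rw [f, hκ, mul_one] at e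
    linarith
  have hup : 0 < u p * κ' := by
    have a := hcmp p hp
    have b := hxm' X hX
    have c : (M x p / M x l - M X p / M X l) * κ' < 0 := by nlinarith
    have : u p = -(N x p / N x l - N X p / N X l) := by simp only [u]; ring
    rw [this]
    by_contra hcon
    push Not at hcon
    have d : 0 ≤ (N x p / N x l - N X p / N X l) * κ' := by nlinarith
    have e : (M x p / M x l - M X p / M X l) * κ' * ((N x p / N x l - N X p / N X l) * κ') ≤ 0 :=
      mul_nonpos_of_nonpos_of_nonneg c.le d
    have f : (M x p / M x l - M X p / M X l) * κ' * ((N x p / N x l - N X p / N X l) * κ') =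
        (M x p / M x l - M X p / M X l) * (N x p / N x l - N X p / N X l) * (κ' * κ') := by ring
    rw [f, hκ', mul_one] at e
    linarith
  -- values on a ray
  have hray : ∀ (κ : ℝ) (q y j : Fin r), κ * (M y q / M y l) < 0 →
      M j l + (-1 / (κ * (M y q / M y l))) * κ * M j q =
      M j l * (1 - (κ * (M j q / M j l)) / (κ * (M y q / M y l))) := by
    intro κ q y j h
    have := hM0 j l
    have h' := h.ne
    field_simp
    ring
  -- the first hit of a ray
  have hhit : ∀ (κ : ℝ) (q : Fin r), q ≠ l → κ * (M x q / M x l) < 0 →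
      (∀ j, j ≠ x → κ * (M x q / M x l) < κ * (M j q / M j l)) →
      ∀ s' : Fin r ⊕ Fin r → ℝ, (∀ i, s' i ≠ 0) → 0 < s' (Sum.inl l) →
      0 < s' (Sum.inl q) * κ → (∀ j, j ≠ x → s' (Sum.inr j) = M j l) → Rls M s' := by
    intro κ q hq hx0 hxm s' hs' hl' hq' hj'
    refine edge (l := l) (q := q) (y := x) (t := -1 / (κ * (M x q / M x l))) (κ := κ) hq
      (div_pos_of_neg_of_neg (by norm_num) hx0) hs' hl' hq' (hM0 x q) ?_ ?_
    · rw [hray κ q x x hx0, div_self hx0.ne, sub_self, mul_zero]
    · intro j hj
      rw [hray κ q x j hx0, hj' j hj, ← mul_assoc]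
      refine mul_pos (mul_self_pos.2 (hM0 j l)) ?_
      rw [sub_pos, div_lt_one_of_neg hx0]
      exact hxm j hj
  refine ⟨s, ?_, ?_⟩
  · refine hhit κ q hq hx0 hxm s hs0 (by simp [s]) (by simpa [s, hq] using huq) ?_
    intro j hj
    simp [s, hj]
  · rintro (k | j)
    · by_cases hkl : k = l
      · -- the flip at `l`
        subst hkl
        refine psi hMN hX (hfs0 _) (hN0 x) (hN0 X) ?_ ?_ ?_
        · intro k' hk'
          have : flp s (Sum.inl k) (Sum.inl k') = u k' := by
            simp [flp, s, hk']
          rw [this]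
          exact mul_self_pos.2 (hu0 k' hk')
        · have : flp s (Sum.inl k) (Sum.inr x) = - M x k := by
            simp [flp, s]
          rw [this, neg_mul_neg, mul_one_div]
          have := h1 x
          rw [show M x k / N x k = (M x k * N x k) / (N x k * N x k) by
            have := hN0 x; field_simp]
          exact div_pos this (mul_self_pos.2 (hN0 x))
        · have : flp s (Sum.inl k) (Sum.inr X) = M X k := by
            simp [flp, s, hX]
          rw [this, mul_one_div]
          have := h1 X
          rw [show M X k / N X k = (M X k * N X k) / (N X k * N X k) by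
            have := hN0 X; field_simp]
          exact div_pos this (mul_self_pos.2 (hN0 X))
      · by_cases hkq : k = q
        · -- the flip at `q`
          refine hhit κ' p hp hx0' hxm' (flp s (Sum.inl k)) (hfs0 _) ?_ ?_ ?_
          · simp [flp, s, Ne.symm hkl]
          · have : flp s (Sum.inl k) (Sum.inl p) = u p := by
              simp [flp, s, hp, hkq, hpq]
            rw [this]
            exact hup
          · intro j hj
            simp [flp, s, hj]
        · refine hhit κ q hq hx0 hxm (flp s (Sum.inl k)) (hfs0 _) ?_ ?_ ?_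
          · simp [flp, s, Ne.symm hkl]
          · have : flp s (Sum.inl k) (Sum.inl q) = u q := by
              simp [flp, s, hq, Ne.symm hkq]
            rw [this]
            exact huq
          · intro j hj
            simp [flp, s, hj]
    · by_cases hjx : j = x
      · -- the flip at `x`
        refine hhit κ q hq hx0 hxm (flp s (Sum.inr j)) (hfs0 _) ?_ ?_ ?_
        · simp [flp, s]
        · have : flp s (Sum.inr j) (Sum.inl q) = u q := by
            simp [flp, s, hq]
          rw [this]
          exact huq
        · intro j' hj'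
          have : j' ≠ j := by rw [hjx]; exact hj'
          simp [flp, s, hj', this]
      · by_cases hjX : j = X
        · -- the flip at `X`
          refine edge (l := l) (q := q) (y := X) (t := -1 / (κ * (M X q / M X l))) (κ := κ) hq
            (div_pos_of_neg_of_neg (by norm_num) hX0) (hfs0 _) ?_ ?_ (hM0 X q) ?_ ?_
          · simp [flp, s]
          · have : flp s (Sum.inr j) (Sum.inl q) = u q := by
              simp [flp, s, hq]
            rw [this]
            exact huq
          · rw [hray κ q X X hX0, div_self hX0.ne, sub_self, mul_zero]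
          · intro j' hj'
            rw [hray κ q X j' hX0]
            have hne : j' ≠ j := by rw [hjX]; exact hj'
            by_cases hj'x : j' = x
            · have : flp s (Sum.inr j) (Sum.inr j') = - M j' l := by
                simp [flp, s, hj'x, Ne.symm hjx]
              rw [this, neg_mul, ← mul_assoc, ← mul_neg]
              refine mul_pos (mul_self_pos.2 (hM0 j' l)) ?_
              rw [neg_sub, sub_pos, one_lt_div_of_neg hX0, hj'x]
              exact hxm X hX
            · have : flp s (Sum.inr j) (Sum.inr j') = M j' l := by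
                simp [flp, s, hj'x, hne]
              rw [this, ← mul_assoc]
              refine mul_pos (mul_self_pos.2 (hM0 j' l)) ?_
              rw [sub_pos, div_lt_one_of_neg hX0]
              exact hXm j' hj'x hj'
        · -- the flip at a blue element of `Ψ`
          refine psi hMN hX (hfs0 _) (hN0 x) (hN0 X) ?_ ?_ ?_
          · intro k' hk'
            have : flp s (Sum.inr j) (Sum.inl k') = u k' := by
              simp [flp, s, hk']
            rw [this]
            exact mul_self_pos.2 (hu0 k' hk')
          · have : flp s (Sum.inr j) (Sum.inr x) = - M x l := by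
              simp [flp, s, Ne.symm hjx]
            rw [this, neg_mul_neg, mul_one_div]
            have := h1 x
            rw [show M x l / N x l = (M x l * N x l) / (N x l * N x l) by
              have := hN0 x; field_simp]
            exact div_pos this (mul_self_pos.2 (hN0 x))
          · have : flp s (Sum.inr j) (Sum.inr X) = M X l := by
              simp [flp, s, hX, Ne.symm hjX]
            rw [this, mul_one_div]
            have := h1 X
            rw [show M X l / N X l = (M X l * N X l) / (N X l * N X l) by
              have := hN0 X; field_simp]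
            exact div_pos this (mul_self_pos.2 (hN0 X))

end Pool.Agent.H34.Mcm
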