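import Mathlib

set_option autoImplicit false

namespace Pool.Agent.H34.Mcm

open Matrix Finset

theorem updateRow_eq {r : ℕ} (B : Matrix (Fin r) (Fin r) ℝ) (k : Fin r) (u : Fin r → ℝ) :
    B.updateRow k u = B + Matrix.of (fun i j => if i = k then u j - B k j else 0) := by
  ext i j
  by_cases h : i = k
  · subst h; simp
  · simp [Matrix.updateRow_ne, h]

theorem det_one_updateRow {r : ℕ} (k : Fin r) (u : Fin r → ℝ) :
    ((1 : Matrix (Fin r) (Fin r) ℝ).updateRow k u).det = u k := by
  let A : Matrix (Fin r) (Fin 1) ℝ := Matrix.of fun i _ => if i = k then 1 else 0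
  let B : Matrix (Fin 1) (Fin r) ℝ := Matrix.of fun _ j => u j - (if j = k then 1 else 0)
  have h : (1 : Matrix (Fin r) (Fin r) ℝ).updateRow k u = 1 + A * B := by
    rw [updateRow_eq]
    congr 1
    ext i j
    simp only [Matrix.mul_apply, Matrix.of_apply, A, B, Finset.univ_unique, Finset.sum_singleton]
    by_cases hi : i = k
    · subst hi
      simp [Matrix.one_apply, eq_comm]
    · simp [hi]
  rw [h, Matrix.det_one_add_mul_comm, Matrix.det_fin_one]
  simp [Matrix.mul_apply, A, B]

theorem det_one_updateRow_two {r : ℕ} {k l : Fin r} (hkl : k ≠ l) (u w : Fin r → ℝ) :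
    (((1 : Matrix (Fin r) (Fin r) ℝ).updateRow k u).updateRow l w).det = u k * w l - u l * w k := by
  let A : Matrix (Fin r) (Fin 2) ℝ := Matrix.of fun i a =>
    if a = 0 then (if i = k then 1 else 0) else (if i = l then 1 else 0)
  let B : Matrix (Fin 2) (Fin r) ℝ := Matrix.of fun a j =>
    if a = 0 then u j - (if j = k then 1 else 0) else w j - (if j = l then 1 else 0)
  have h : ((1 : Matrix (Fin r) (Fin r) ℝ).updateRow k u).updateRow l w = 1 + A * B := by
    ext i j
    simp only [Matrix.add_apply, Matrix.mul_apply, Matrix.of_apply, A, B, Fin.sum_univ_two]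
    by_cases hi : i = l
    · subst hi
      simp [Matrix.one_apply, hkl.symm, eq_comm]
    · by_cases hik : i = k
      · subst hik
        simp [Matrix.one_apply, Matrix.updateRow_ne, hkl, eq_comm]
      · simp [Matrix.updateRow_ne, hi, hik]
  rw [h, Matrix.det_one_add_mul_comm, Matrix.det_fin_two]
  simp [Matrix.mul_apply, A, B, hkl, hkl.symm]

theorem det_updateRow_mul {r : ℕ} (M A C : Matrix (Fin r) (Fin r) ℝ) (h : C = M * A)
    (j k : Fin r) : (A.updateRow k (C j)).det = M j k * A.det := by
  have e : A.updateRow k (C j) = (1 : Matrix (Fin r) (Fin r) ℝ).updateRow k (M j) * A := by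
    rw [Matrix.updateRow_mul, Matrix.one_mul]
    congr 1
    rw [h]
    rfl
  rw [e, Matrix.det_mul, det_one_updateRow]

theorem det_updateRow_two_mul {r : ℕ} (M A C : Matrix (Fin r) (Fin r) ℝ) (h : C = M * A)
    (i j k l : Fin r) (hkl : k ≠ l) : ((A.updateRow k (C i)).updateRow l (C j)).det =
    (M i k * M j l - M i l * M j k) * A.det := by
  have e : (A.updateRow k (C i)).updateRow l (C j) =
      ((1 : Matrix (Fin r) (Fin r) ℝ).updateRow k (M i)).updateRow l (M j) * A := by
    rw [Matrix.updateRow_mul, Matrix.updateRow_mul, Matrix.one_mul]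
    congr 1
    · congr 1
      rw [h]
      rfl
    · rw [h]
      rfl
  rw [e, Matrix.det_mul, det_one_updateRow_two hkl]

end Pool.Agent.H34.Mcm
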