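import Mathlib
import Pool.Agent.H34.Mcm.Core

set_option autoImplicit false

namespace Pool.Agent.H34.Mcm

open Matrix Finset

/-- The complete cell exists. -/
theorem complete {r : ℕ} (hr : 3 ≤ r) {M N : Matrix (Fin r) (Fin r) ℝ} (l : Fin r)
    (hMN : ∀ i j, ∑ k, M i k * N j k = if i = j then 1 else 0)
    (hNM : ∀ k l, ∑ j, M j k * N j l = if k = l then 1 else 0)
    (hM0 : ∀ j k, M j k ≠ 0)
    (h1 : ∀ j, 0 < M j l * N j l)
    (h2 : ∀ i j k, i ≠ j → k ≠ l →
      0 < (M i k * M j l - M i l * M j k) * (N i k * N j l - N i l * N j k)) : Cmpl M := by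
  classical
  by_contra hcon
  have hN0 : ∀ j, N j l ≠ 0 := fun j h => by have := h1 j; rw [h] at this; simp at this
  let ρ : Fin r → Fin r → ℝ := fun j q => M j q / M j l
  have hρ0 : ∀ j q, ρ j q ≠ 0 := fun j q => div_ne_zero (hM0 j q) (hM0 j l)
  have hinj : ∀ q, q ≠ l → ∀ i j, i ≠ j → ρ i q ≠ ρ j q := by
    intro q hq i j hij h
    have := h2 i j q hij hq
    have e : M i q * M j l - M i l * M j q = 0 := by
      have a := hM0 i l
      have b := hM0 j l
      simp only [ρ] at h
      field_simp at h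
      linarith
    rw [e] at this
    simp at this
  -- extremes
  have hex : ∀ (κ : ℝ) (q : Fin r), κ * κ = 1 → q ≠ l → ∃ x, ∀ j, j ≠ x → κ * ρ x q < κ * ρ j q := by
    intro κ q hκ hq
    obtain ⟨x, -, hx⟩ := Finset.exists_min_image univ (fun j => κ * ρ j q) ⟨l, mem_univ l⟩
    refine ⟨x, fun j hj => lt_of_le_of_ne (hx j (mem_univ j)) ?_⟩
    intro h
    apply hinj q hq x j hj.symm
    have : κ * (κ * ρ x q) = κ * (κ * ρ j q) := by rw [h]
    rwa [← mul_assoc, ← mul_assoc, hκ, one_mul, one_mul] at this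
  have hex2 : ∀ (κ : ℝ) (q x : Fin r), κ * κ = 1 → q ≠ l → ∃ X, X ≠ x ∧
      ∀ j, j ≠ x → j ≠ X → κ * ρ X q < κ * ρ j q := by
    intro κ q x hκ hq
    have hne : (univ.erase x : Finset (Fin r)).Nonempty := by
      rw [← Finset.card_pos, Finset.card_erase_of_mem (mem_univ x), Finset.card_univ,
        Fintype.card_fin]
      omega
    obtain ⟨X, hXm, hX⟩ := Finset.exists_min_image (univ.erase x) (fun j => κ * ρ j q) hne
    refine ⟨X, (Finset.mem_erase.1 hXm).1, fun j hj hjX => lt_of_le_of_ne
      (hX j (Finset.mem_erase.2 ⟨hj, mem_univ j⟩)) ?_⟩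
    intro h
    apply hinj q hq X j hjX.symm
    have : κ * (κ * ρ X q) = κ * (κ * ρ j q) := by rw [h]
    rwa [← mul_assoc, ← mul_assoc, hκ, one_mul, one_mul] at this
  -- signs of products
  have hz : ∀ j q, M j q * N j l = (M j l * N j l) * ρ j q := by
    intro j q
    have c := hM0 j l
    simp only [ρ]
    field_simp
  have hρl : ∀ j, ρ j l = 1 := fun j => div_self (hM0 j l)
  -- both signs appear
  have hneg : ∀ (κ : ℝ) (q : Fin r), κ * κ = 1 → q ≠ l → ∃ j, κ * ρ j q < 0 := by
    intro κ q hκ hq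
    by_contra hc
    push Not at hc
    have h0 := hNM q l
    rw [if_neg hq] at h0
    have : 0 < ∑ j, κ * (M j q * N j l) := by
      refine Finset.sum_pos (fun j _ => ?_) ⟨l, mem_univ l⟩
      have b := hc j
      have b' : 0 < κ * ρ j q := lt_of_le_of_ne b (Ne.symm (mul_ne_zero (by
        rintro rfl; simp at hκ) (hρ0 j q)))
      rw [hz, ← mul_assoc, mul_comm κ, mul_assoc]
      exact mul_pos (h1 j) b'
    rw [← Finset.mul_sum, h0, mul_zero] at this
    exact lt_irrefl _ this
  -- certificates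
  have hcert : ∀ (κ κ' : ℝ) (p q x i : Fin r), κ * κ = 1 → κ' * κ' = 1 → p ≠ l → q ≠ l → p ≠ q →
      (∀ j, j ≠ x → κ * ρ x q < κ * ρ j q) → (∀ j, j ≠ x → κ' * ρ x p < κ' * ρ j p) →
      i ≠ x → κ * ρ i q < 0 → False := by
    intro κ κ' p q x i hκ hκ' hp hq hpq hx hx' hi hi0
    obtain ⟨X, hX, hXm⟩ := hex2 κ q x hκ hq
    have hX0 : κ * ρ X q < 0 := by
      by_cases h : i = X
      · rw [← h]; exact hi0
      · exact (hXm i hi h).trans hi0
    have hx0 : κ * ρ x q < 0 := (hx X hX).trans hX0
    have hx0' : κ' * ρ x p < 0 := by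
      obtain ⟨j, hj⟩ := hneg κ' p hκ' hp
      by_cases h : j = x
      · rw [← h]; exact hj
      · exact (hx' j h).trans hj
    exact hcon (cert hMN hM0 h1 h2 hκ hκ' hp hq hpq hx0 hx hx0' hx' hX hX0 hXm)
  -- the rich sign of a column
  have hrich : ∀ q, ∃ κ : ℝ, κ * κ = 1 ∧ ∃ i j, i ≠ j ∧ κ * ρ i q < 0 ∧ κ * ρ j q < 0 := by
    intro q
    have hcard : 2 ≤ (univ.filter fun j => ρ j q < 0).card ∨
        2 ≤ (univ.filter fun j => ¬ ρ j q < 0).card := by
      have := Finset.card_filter_add_card_filter_not (s := (univ : Finset (Fin r)))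
        (fun j => ρ j q < 0)
      rw [Finset.card_univ, Fintype.card_fin] at this
      omega
    rcases hcard with h | h
    · obtain ⟨i, hi, j, hj, hij⟩ := Finset.one_lt_card.1 h
      simp only [Finset.mem_filter, Finset.mem_univ, true_and] at hi hj
      exact ⟨1, by norm_num, i, j, hij, by simpa using hi, by simpa using hj⟩
    · obtain ⟨i, hi, j, hj, hij⟩ := Finset.one_lt_card.1 h
      simp only [Finset.mem_filter, Finset.mem_univ, true_and, not_lt] at hi hj
      refine ⟨-1, by norm_num, i, j, hij, ?_, ?_⟩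
      · have := lt_of_le_of_ne hi (Ne.symm (hρ0 i q))
        linarith
      · have := lt_of_le_of_ne hj (Ne.symm (hρ0 j q))
        linarith
  choose κ hκ a b hab ha hb using hrich
  have hx : ∀ q, ∃ x, q ≠ l → ∀ j, j ≠ x → κ q * ρ x q < κ q * ρ j q := by
    intro q
    by_cases hq : q = l
    · exact ⟨l, fun h => absurd hq h⟩
    · obtain ⟨x, hx⟩ := hex (κ q) q (hκ q) hq
      exact ⟨x, fun _ => hx⟩
  choose h hh using hx
  have hy : ∀ q, ∃ y, q ≠ l → ∀ j, j ≠ y → (-κ q) * ρ y q < (-κ q) * ρ j q := by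
    intro q
    by_cases hq : q = l
    · exact ⟨l, fun h => absurd hq h⟩
    · obtain ⟨x, hx⟩ := hex (-κ q) q (by have := hκ q; nlinarith) hq
      exact ⟨x, fun _ => hx⟩
  choose g hg using hy
  have hg0 : ∀ q, q ≠ l → (-κ q) * ρ (g q) q < 0 := by
    intro q hq
    obtain ⟨j, hj⟩ := hneg (-κ q) q (by have := hκ q; nlinarith) hq
    by_cases h' : j = g q
    · rw [← h']; exact hj
    · exact (hg q hq j h').trans hj
  -- two elements on the rich side, one of which is not `h q`
  have hother : ∀ q x, ∃ i, i ≠ x ∧ κ q * ρ i q < 0 := by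
    intro q x
    by_cases h' : a q = x
    · exact ⟨b q, fun hbx => hab q (h'.trans hbx.symm), hb q⟩
    · exact ⟨a q, h', ha q⟩
  have hh0 : ∀ q, q ≠ l → κ q * ρ (h q) q < 0 := by
    intro q hq
    obtain ⟨i, hi, hi0⟩ := hother q (h q)
    exact (hh q hq i hi).trans hi0
  have hhinj : ∀ p q, p ≠ l → q ≠ l → h p = h q → p = q := by
    intro p q hp hq hpq
    by_contra hne
    obtain ⟨i, hi, hi0⟩ := hother q (h q)
    refine hcert (κ q) (κ p) p q (h q) i (hκ q) (hκ p) hp hq hne (hh q hq) ?_ hi hi0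
    rw [← hpq]
    exact hh p hp
  have hgh : ∀ p q, p ≠ l → q ≠ l → g p ≠ h q := by
    intro p q hp hq hpq
    by_cases hne : p = q
    · subst hne
      have e1 := hg0 p hp
      have e2 := hh0 p hp
      rw [hpq] at e1
      linarith
    · obtain ⟨i, hi, hi0⟩ := hother q (h q)
      refine hcert (κ q) (-κ p) p q (h q) i (hκ q) (by have := hκ p; nlinarith) hp hq hne
        (hh q hq) ?_ hi hi0
      rw [← hpq]
      exact hg p hp
  -- the image of `h` misses exactly one element
  have himg : ((univ.erase l).image h).card = r - 1 := by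
    rw [Finset.card_image_of_injOn, Finset.card_erase_of_mem (mem_univ l), Finset.card_univ,
      Fintype.card_fin]
    intro p hp q hq hpq
    simp only [Finset.coe_erase, Finset.coe_univ, Set.mem_sdiff, Set.mem_univ, true_and,
      Set.mem_singleton_iff] at hp hq
    exact hhinj p q hp hq hpq
  have hgeq : ∀ p q, p ≠ l → q ≠ l → g p = g q := by
    intro p q hp hq
    by_contra hne
    have hc : (insert (g p) (insert (g q) ((univ.erase l).image h))).card = r - 1 + 1 + 1 := by
      rw [Finset.card_insert_of_notMem, Finset.card_insert_of_notMem, himg]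
      · intro hm
        obtain ⟨q', hq', he⟩ := Finset.mem_image.1 hm
        exact hgh q q' hq (Finset.mem_erase.1 hq').1 he.symm
      · intro hm
        rcases Finset.mem_insert.1 hm with hm | hm
        · exact hne hm
        · obtain ⟨q', hq', he⟩ := Finset.mem_image.1 hm
          exact hgh p q' hp (Finset.mem_erase.1 hq').1 he.symm
    have hle := Finset.card_le_univ (insert (g p) (insert (g q) ((univ.erase l).image h)))
    rw [hc, Fintype.card_fin] at hle
    omega
  -- two columns other than `l`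
  obtain ⟨p, q, hp, hq, hpq⟩ : ∃ p q : Fin r, p ≠ l ∧ q ≠ l ∧ p ≠ q := by
    have hc : 1 < (univ.erase l : Finset (Fin r)).card := by
      rw [Finset.card_erase_of_mem (mem_univ l), Finset.card_univ, Fintype.card_fin]
      omega
    obtain ⟨p, hp, q, hq, hpq⟩ := Finset.one_lt_card.1 hc
    exact ⟨p, q, (Finset.mem_erase.1 hp).1, (Finset.mem_erase.1 hq).1, hpq⟩
  have hpoor : ∀ p q, p ≠ l → q ≠ l → p ≠ q → ∀ i, i ≠ g q → 0 ≤ (-κ q) * ρ i q := by
    intro p q hp hq hpq i hi
    by_contra hc
    push Not at hc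
    refine hcert (-κ q) (-κ p) p q (g q) i (by have := hκ q; nlinarith)
      (by have := hκ p; nlinarith) hp hq hpq (hg q hq) ?_ hi hc
    rw [← hgeq p q hp hq]
    exact hg p hp
  -- the final contradiction
  have hkp : κ p ≠ 0 := by intro h0; have := hκ p; rw [h0] at this; simp at this
  have hneg1 : ∀ j, j ≠ g q → κ p * ρ j p < 0 := by
    intro j hj
    have e2 := hpoor q p hq hp (Ne.symm hpq) j (by rwa [hgeq p q hp hq])
    have e2' := lt_of_le_of_ne e2 (Ne.symm (mul_ne_zero (neg_ne_zero.2 hkp) (hρ0 j p)))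
    linarith
  have hconc : ∀ j, j ≠ g q → 0 < (-κ q) * (N j q / N j l - N (g q) q / N (g q) l) := by
    intro j hj
    have e1 := hg q hq j hj
    have e2 := h2 j (g q) q hj hq
    have a1 := h1 j
    have a2 := h1 (g q)
    have e3 : (M j q / M j l - M (g q) q / M (g q) l) *
        (N j q / N j l - N (g q) q / N (g q) l) =
        ((M j q * M (g q) l - M j l * M (g q) q) * (N j q * N (g q) l - N j l * N (g q) q)) /
        ((M j l * N j l) * (M (g q) l * N (g q) l)) := by
      have := hM0 j l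
      have := hM0 (g q) l
      have := hN0 j
      have := hN0 (g q)
      field_simp
    have e4 : 0 < (M j q / M j l - M (g q) q / M (g q) l) *
        (N j q / N j l - N (g q) q / N (g q) l) := by
      rw [e3]
      exact div_pos e2 (mul_pos a1 a2)
    have e5 : 0 < (-κ q) * (M j q / M j l - M (g q) q / M (g q) l) := by
      simp only [ρ] at e1
      linarith
    have e6 : (-κ q) * (N j q / N j l - N (g q) q / N (g q) l) *
        ((-κ q) * (M j q / M j l - M (g q) q / M (g q) l)) =
        (κ q * κ q) * ((M j q / M j l - M (g q) q / M (g q) l) *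
        (N j q / N j l - N (g q) q / N (g q) l)) := by ring
    rw [hκ, one_mul] at e6
    rw [← e6] at e4
    exact (mul_pos_iff_of_pos_right e5).1 e4
  have h0 := hNM p q
  rw [if_neg hpq] at h0
  have h0' := hNM p l
  rw [if_neg hp] at h0'
  have hsum : ∑ j, (κ p * κ q) * (M j p * N j q - N (g q) q / N (g q) l * (M j p * N j l)) = 0 := by
    rw [← Finset.mul_sum, Finset.sum_sub_distrib, ← Finset.mul_sum, h0, h0']
    ring
  have hterm : ∀ j, (κ p * κ q) * (M j p * N j q - N (g q) q / N (g q) l * (M j p * N j l)) =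
      (M j l * N j l) * (- (κ p * ρ j p)) * ((-κ q) * (N j q / N j l - N (g q) q / N (g q) l)) := by
    intro j
    have c1 := hM0 j l
    have c2 := hN0 j
    have c3 := hN0 (g q)
    simp only [ρ]
    field_simp
  have hpos : 0 < ∑ j, (κ p * κ q) *
      (M j p * N j q - N (g q) q / N (g q) l * (M j p * N j l)) := by
    obtain ⟨j₁, hj₁⟩ : ∃ j : Fin r, j ≠ g q := by
      by_contra hc
      push Not at hc
      have := hc p
      exact hpq (this.trans (hc q).symm)
    refine Finset.sum_pos' (fun j _ => ?_) ⟨j₁, mem_univ _, ?_⟩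
    · rw [hterm]
      by_cases hj : j = g q
      · rw [hj]; simp
      · exact (mul_pos (mul_pos (h1 j) (neg_pos.2 (hneg1 j hj))) (hconc j hj)).le
    · rw [hterm]
      exact mul_pos (mul_pos (h1 j₁) (neg_pos.2 (hneg1 j₁ hj₁))) (hconc j₁ hj₁)
  rw [hsum] at hpos
  exact lt_irrefl _ hpos

end Pool.Agent.H34.Mcm
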