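import Mathlib
import Pool.Agent.H34.Mcm.Pigeon
import Pool.Agent.H34.Mcm.Dets

set_option autoImplicit false

namespace Pool.Agent.H34.Mcm

open Matrix Finset

/-- The data of a projective transformation `x ↦ (A x + b) / (⟨c, x⟩ + δ)` of `ℝ^d`: the block
matrix `(A b; c δ)` is invertible. -/
structure ProjTrans (d : ℕ) where
  /-- linear part -/
  A : Matrix (Fin d) (Fin d) ℝ
  /-- translation part -/
  b : Fin d → ℝ
  /-- linear part of the denominator -/
  c : Fin d → ℝ
  /-- constant part of the denominator -/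
  δ : ℝ
  /-- the block matrix is invertible -/
  inv : IsUnit (Matrix.fromBlocks A (Matrix.of fun i (_ : Unit) => b i)
    (Matrix.of fun (_ : Unit) j => c j) (Matrix.of fun (_ : Unit) (_ : Unit) => δ))

/-- The denominator `⟨c, x⟩ + δ`. -/
def ProjTrans.den {d : ℕ} (T : ProjTrans d) (x : Fin d → ℝ) : ℝ := (∑ i, T.c i * x i) + T.δ

/-- The map `x ↦ (A x + b) / (⟨c, x⟩ + δ)`. -/
noncomputable def ProjTrans.map {d : ℕ} (T : ProjTrans d) (x : Fin d → ℝ) : Fin d → ℝ :=
  fun i => ((∑ k, T.A i k * x k) + T.b i) / T.den x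

/-- The vector `(1, y)`. -/
def hat {d : ℕ} (y : Fin d → ℝ) : Fin (d + 1) → ℝ := Fin.cons 1 y

/-- The points `x_0, x_1, ...` can be sent to convex position by a permissible projective
transformation. -/
def CanConvex {d : ℕ} {ι : Type} (x : ι → Fin d → ℝ) : Prop :=
  ∃ T : ProjTrans d, (∀ j, T.den (x j) ≠ 0) ∧
    ∀ j, T.map (x j) ∉ convexHull ℝ ((fun k => T.map (x k)) '' {k | k ≠ j})

/-- The points have a complete sign vector. -/
def CmplPt {r : ℕ} {ι : Type} [DecidableEq ι] (v : ι → Fin r → ℝ) : Prop :=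
  ∃ s : ι → ℝ, (∃ ψ : Fin r → ℝ, ∀ i, 0 < s i * ∑ a, ψ a * v i a) ∧
    ∀ m, ∃ ψ : Fin r → ℝ, ∀ i, 0 < flp s m i * ∑ a, ψ a * v i a

theorem canConvex_of_cmpl {d : ℕ} {ι : Type} [DecidableEq ι] [Fintype ι] (x : ι → Fin d → ℝ)
    (h : CmplPt fun i => hat (x i)) : CanConvex x := by
  classical
  obtain ⟨s, ⟨l₀, hl₀⟩, hm⟩ := h
  choose q hq using hm
  -- evaluate the functionals
  have ev : ∀ (l : Fin (d + 1) → ℝ) (j : ι),
      ∑ i, l i * hat (x j) i = (∑ i, l i.succ * x j i) + l 0 := by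
    intro l j
    rw [Fin.sum_univ_succ]
    simp only [hat, Fin.cons_zero, Fin.cons_succ, mul_one]
    ring
  simp only [ev] at hl₀ hq
  -- perturb so that the constant term is non-zero
  obtain ⟨l, hl0, hl⟩ : ∃ l : Fin (d + 1) → ℝ, l 0 ≠ 0 ∧
      ∀ i, 0 < s i * ((∑ a, l a.succ * x i a) + l 0) := by
    have h1 : ∀ i, ∀ᶠ ε in nhdsWithin (0 : ℝ) ({0}ᶜ : Set ℝ),
        0 < s i * ((∑ a, l₀ a.succ * x i a) + (l₀ 0 + ε)) := by
      intro i
      have hc : ContinuousAt (fun ε : ℝ => s i * ((∑ a, l₀ a.succ * x i a) + (l₀ 0 + ε))) 0 := by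
        fun_prop
      have : ∀ᶠ ε in nhds (0 : ℝ), 0 < s i * ((∑ a, l₀ a.succ * x i a) + (l₀ 0 + ε)) := by
        apply hc.eventually_const_lt
        simpa using hl₀ i
      exact this.filter_mono nhdsWithin_le_nhds
    by_cases h0 : l₀ 0 = 0
    · obtain ⟨ε, hε, hε0⟩ := ((Filter.eventually_all.2 h1).and self_mem_nhdsWithin).exists
      refine ⟨Fin.cons (l₀ 0 + ε) (fun a => l₀ a.succ), ?_, ?_⟩
      · simpa [h0] using hε0
      · intro i
        simpa using hε i
    · exact ⟨l₀, h0, hl₀⟩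
  let T : ProjTrans d :=
    { A := 1
      b := 0
      c := fun i => l i.succ
      δ := l 0
      inv := by
        rw [Matrix.isUnit_iff_isUnit_det]
        have h0 : (Matrix.of fun (i : Fin d) (_ : Unit) => (0 : Fin d → ℝ) i) = 0 := by
          ext i j; rfl
        rw [h0, Matrix.det_fromBlocks_zero₁₂]
        simpa using hl0 }
  have hden : ∀ j, T.den (x j) = (∑ i, l i.succ * x j i) + l 0 := fun j => rfl
  have hne : ∀ j, T.den (x j) ≠ 0 := by
    intro j h0
    have := hl j
    rw [← hden, h0, mul_zero] at this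
    exact lt_irrefl _ this
  have hmap : ∀ j i, T.map (x j) i = x j i / T.den (x j) := by
    intro j i
    simp only [ProjTrans.map, T]
    simp [Matrix.one_apply]
  refine ⟨T, hne, fun m hmem => ?_⟩
  -- the separating affine functional
  let f : (Fin d → ℝ) →ₗ[ℝ] ℝ :=
    ∑ i, (q m i.succ - q m 0 / l 0 * l i.succ) • LinearMap.proj i
  have hf : ∀ y, f y = ∑ i, (q m i.succ - q m 0 / l 0 * l i.succ) * y i := by
    intro y
    simp [f, LinearMap.sum_apply]
  have hfx : ∀ j, f (T.map (x j)) + q m 0 / l 0 =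
      ((∑ i, q m i.succ * x j i) + q m 0) / T.den (x j) := by
    intro j
    have e1 : f (T.map (x j)) =
        ((∑ i, q m i.succ * x j i) - q m 0 / l 0 * ∑ i, l i.succ * x j i) / T.den (x j) := by
      rw [hf, Finset.mul_sum, ← Finset.sum_sub_distrib, Finset.sum_div]
      refine Finset.sum_congr rfl fun i _ => ?_
      rw [hmap]
      ring
    have e2 : (∑ i, l i.succ * x j i) = T.den (x j) - l 0 := by
      rw [hden]; ring
    rw [e1, e2]
    have := hne j
    field_simp
    ring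
  have hsq : ∀ j, 0 < s j * s j := by
    intro j
    refine mul_self_pos.2 ?_
    intro h0
    have := hl j
    rw [h0, zero_mul] at this
    exact lt_irrefl _ this
  have hpos : ∀ j, j ≠ m → 0 < f (T.map (x j)) + q m 0 / l 0 := by
    intro j hj
    have h1 := hl j
    have h2 := hq m j
    have h3 : flp s m j = s j := by simp [flp, hj]
    rw [h3] at h2
    rw [← hden] at h1
    rw [hfx]
    have h4 := mul_pos h2 h1
    have h5 : 0 < ((∑ i, q m i.succ * x j i) + q m 0) * T.den (x j) := by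
      have e : s j * ((∑ i, q m i.succ * x j i) + q m 0) * (s j * T.den (x j)) =
        (s j * s j) * (((∑ i, q m i.succ * x j i) + q m 0) * T.den (x j)) := by ring
      rw [e] at h4
      exact (mul_pos_iff_of_pos_left (hsq j)).1 h4
    have h6 : ((∑ i, q m i.succ * x j i) + q m 0) / T.den (x j) =
        (((∑ i, q m i.succ * x j i) + q m 0) * T.den (x j)) / (T.den (x j) * T.den (x j)) := by
      have := hne j
      field_simp
    rw [h6]
    exact div_pos h5 (mul_self_pos.mpr (hne j))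
  have hneg : f (T.map (x m)) + q m 0 / l 0 < 0 := by
    have h1 := hl m
    have h2 := hq m m
    have h3 : flp s m m = -(s m) := by simp [flp]
    rw [h3] at h2
    rw [← hden] at h1
    rw [hfx]
    have h4 := mul_pos h2 h1
    have h5 : 0 < -((∑ i, q m i.succ * x m i) + q m 0) * T.den (x m) := by
      have e : -s m * ((∑ i, q m i.succ * x m i) + q m 0) * (s m * T.den (x m)) =
        (s m * s m) * (-((∑ i, q m i.succ * x m i) + q m 0) * T.den (x m)) := by ring
      rw [e] at h4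
      exact (mul_pos_iff_of_pos_left (hsq m)).1 h4
    have h6 : ((∑ i, q m i.succ * x m i) + q m 0) / T.den (x m) =
        -((-((∑ i, q m i.succ * x m i) + q m 0) * T.den (x m)) /
          (T.den (x m) * T.den (x m))) := by
      have := hne m
      field_simp
    rw [h6, neg_lt_zero]
    exact div_pos h5 (mul_self_pos.mpr (hne m))
  -- the half space
  have hconv : Convex ℝ {y : Fin d → ℝ | -(q m 0 / l 0) < f y} :=
    convex_halfSpace_gt f.isLinear _
  have hsub : convexHull ℝ ((fun k => T.map (x k)) '' {k | k ≠ m}) ⊆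
      {y : Fin d → ℝ | -(q m 0 / l 0) < f y} := by
    refine convexHull_min ?_ hconv
    rintro _ ⟨k, hk, rfl⟩
    have := hpos k hk
    show -(q m 0 / l 0) < f (T.map (x k))
    linarith
  have h7 : -(q m 0 / l 0) < f (T.map (x m)) := hsub hmem
  linarith

/-- Passing from the matrix `C A⁻¹` to the points. -/
theorem cmplPt_of_cmpl {r : ℕ} {ι : Type} [DecidableEq ι] (v : ι → Fin r → ℝ)
    (e : Fin r ⊕ Fin r ≃ ι) (μ : ι → ℝ) (hμ : ∀ i, 0 < μ i)
    (A C : Matrix (Fin r) (Fin r) ℝ) (hA : IsUnit A.det)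
    (hAv : ∀ k a, A k a = μ (e (Sum.inl k)) * v (e (Sum.inl k)) a)
    (hCv : ∀ k a, C k a = μ (e (Sum.inr k)) * v (e (Sum.inr k)) a)
    (h : Cmpl (C * A⁻¹)) : CmplPt v := by
  classical
  -- realisations transfer
  have key : ∀ s : Fin r ⊕ Fin r → ℝ, Rls (C * A⁻¹) s →
      ∃ ψ : Fin r → ℝ, ∀ i, 0 < s i * ∑ a, ψ a * v (e i) a := by
    rintro s ⟨x, hx⟩
    refine ⟨A⁻¹ *ᵥ x, fun i => ?_⟩
    have h1 : ∀ i, gvl (C * A⁻¹) x i = μ (e i) * ∑ a, (A⁻¹ *ᵥ x) a * v (e i) a := by
      rintro (k | j)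
      · have e1 : x k = (A *ᵥ (A⁻¹ *ᵥ x)) k := by
          rw [Matrix.mulVec_mulVec, Matrix.mul_nonsing_inv _ hA, Matrix.one_mulVec]
        simp only [gvl, Sum.elim_inl]
        rw [e1]
        simp only [Matrix.mulVec, dotProduct, hAv]
        rw [Finset.mul_sum]
        refine Finset.sum_congr rfl fun a _ => ?_
        ring
      · simp only [gvl, Sum.elim_inr]
        have e1 : ∑ k, (C * A⁻¹) j k * x k = (C *ᵥ (A⁻¹ *ᵥ x)) j := by
          rw [Matrix.mulVec_mulVec]
          rfl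
        rw [e1]
        simp only [Matrix.mulVec, dotProduct, hCv]
        rw [Finset.mul_sum]
        refine Finset.sum_congr rfl fun a _ => ?_
        ring
    have h2 := hx i
    rw [h1] at h2
    have h3 : s i * (μ (e i) * ∑ a, (A⁻¹ *ᵥ x) a * v (e i) a) =
        μ (e i) * (s i * ∑ a, (A⁻¹ *ᵥ x) a * v (e i) a) := by ring
    rw [h3] at h2
    exact (mul_pos_iff_of_pos_left (hμ _)).1 h2
  obtain ⟨s, hs, hm⟩ := h
  refine ⟨fun i => s (e.symm i), ?_, ?_⟩
  · obtain ⟨ψ, hψ⟩ := key s hs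
    exact ⟨ψ, fun i => by simpa using hψ (e.symm i)⟩
  · intro m
    obtain ⟨ψ, hψ⟩ := key _ (hm (e.symm m))
    refine ⟨ψ, fun i => ?_⟩
    have := hψ (e.symm i)
    rw [Equiv.apply_symm_apply] at this
    have h4 : flp (fun i => s (e.symm i)) m i = flp s (e.symm m) (e.symm i) := by
      simp [flp]
    rw [h4]
    exact this

end Pool.Agent.H34.Mcm
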